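import Pool.Agent.H2.EV.Gr4
import Pool.Agent.H2.EV.U3
import Pool.Agent.H2.EV.Tur

/-!
# New exponents for the Turán numbers of even cycles

For `k ≥ 5` put `D(k) = 4k + 2 - ⌊k/4⌋`. There is `c > 0` such that for all large `n` there is a graph with `n`
vertices, girth greater than `2k` and at least `c n ^ (1 + 3 / D(k))` edges; hence
`ex(n, C_{2k}) ≥ c n ^ (1 + 3 / D(k))`.

For `k = 2m`, `m ≥ 1`, the same holds with the exponent `1 + 1 / (3m - 1 - ⌊(m-1)/3⌋)`. In particular
`ex(n, C_16) ≥ c n ^ (11/10)`, `ex(n, C_20) ≥ c n ^ (14/13)` and `ex(n, C_28) ≥ c n ^ (19/18)`.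

The exponent `max (1 + 3 / D(k), 1 + 1 / (3k/2 - ⌈k/6⌉))` (the second one for even `k`) is greater than the exponent
`1 + 2 / (3k - 3 + ε)` of Lazebnik, Ustimenko and Woldar for `k = 8` and all `k ≥ 10`.

Method. The finite graphs are quotients of trees of unitary groups in three and four variables of cyclic division
algebras over rational function fields in odd characteristic. A closed walk of `r` double steps gives an element
`W ≠ 1` of the unitary group and a polynomial `p ≠ 0`, a multiple of the reduced norm of `1 - W`, which is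
self-reciprocal with respect to the degree `r`. If `W` is in the `m`-th congruence subgroup at the ramified place
`X = 0`, then `X ^ m ∣ p` and `r ≥ 2m`.
(a) Three variables: `p` is anti-reciprocal for even `r`, which excludes `p = c X ^ m`: the girth is at least `4m + 2`.
(b) Four variables: if the coefficient `y` of the layer `m` satisfies `σ² y = -y`, then the reduced norm of `y` is
`z²` with `σ z = - z`, but for `r = 2m` reciprocity says that it is fixed by `ψ`, `ψ² = σ`; hence `z = 0`. So the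
girth is at least `4m + 2` at the cost of one half of a layer.
(c) Four variables: the level structure at the inert place `X = -1` (index `O(q^15)`) adds the factor `(X + 1) ^ 4`.
-/

set_option autoImplicit false

namespace Pool.Agent.H2.Old.NewExponents

open Filter

/-- There is `c > 0` such that for all sufficiently large `n` there is a graph with `n` vertices, girth greater than
`2k` and at least `c n ^ (1 + e)` edges, and `ex(n, C_{2k}) ≥ c n ^ (1 + e)`. -/
def Dense (k : ℕ) (e : ℝ) : Prop :=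
  ∃ c : ℝ, 0 < c ∧ ∀ᶠ n : ℕ in atTop,
    (∃ G : SimpleGraph (Fin n), ((2 * k : ℕ) : ℕ∞) < G.egirth ∧
      c * (n : ℝ) ^ (1 + e) ≤ (G.edgeSet.ncard : ℝ)) ∧
    c * (n : ℝ) ^ (1 + e) ≤
      (SimpleGraph.extremalNumber n (SimpleGraph.cycleGraph (2 * k)) : ℝ)

theorem dense_of (k g : ℕ) (hk : 2 ≤ k) (hg : 2 * k < g) (e : ℝ)
    (h : ∃ c : ℝ, 0 < c ∧ ∀ᶠ n : ℕ in atTop, ∃ Γ : SimpleGraph (Fin n),
      ((g : ℕ) : ℕ∞) ≤ Γ.egirth ∧ c * (n : ℝ) ^ (1 + e) ≤ (Γ.edgeSet.ncard : ℝ)) :
    Dense k e := by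
  classical
  obtain ⟨c, hc, h⟩ := h
  refine ⟨c, hc, ?_⟩
  filter_upwards [h] with n hn
  obtain ⟨H, h1, hE⟩ := hn
  have h1' : ((2 * k : ℕ) : ℕ∞) < H.egirth := lt_of_lt_of_le (by exact_mod_cast hg) h1
  refine ⟨⟨H, h1', hE⟩, hE.trans ?_⟩
  have hfree : (SimpleGraph.cycleGraph (2 * k)).Free H := by
    intro hcon
    rw [SimpleGraph.cycleGraph_isContained_iff (by omega)] at hcon
    obtain ⟨v, w, hw, hl⟩ := hcon
    have h2 : H.egirth ≤ w.length := by
      exact hw.egirth_le_length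
    rw [hl] at h2
    exact absurd h1' (not_lt.2 h2)
  have h3 := SimpleGraph.card_edgeFinset_le_extremalNumber hfree
  rw [Fintype.card_fin] at h3
  rw [Set.ncard_eq_toFinset_card']
  exact_mod_cast h3

theorem four (k m t hl : ℕ) (hk : 2 ≤ k) (hm : 1 ≤ m) (ht : t ≤ 1) (hh : hl ≤ 1)
    (hg : 2 * k < 2 * (2 * m + 4 * t + hl))
    (hD : 8 * m - 2 - 2 * ((m - 1) / 4) + 15 * t + hl * (if 4 ∣ m then 2 else 4) =
      4 * k + 2 - k / 4) : Dense k (3 / ((4 * k + 2 - k / 4 : ℕ) : ℝ)) := by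
  refine dense_of k _ hk hg _ ?_
  have key := Pool.Agent.H2.EV.tur 3 (4 * k + 2 - k / 4) (2 * (2 * m + 4 * t + hl)) 4 80
    (by norm_num) (by omega) (by norm_num) (by norm_num) (fun a ha => by
      have h9 : 9 ≤ 3 ^ a := by
        calc 9 = 3 ^ 2 := by norm_num
          _ ≤ 3 ^ a := Nat.pow_le_pow_right (by norm_num) ha
      obtain ⟨δ, V, i1, i2, Γ, i3, h1, h2, h3, h4, h5⟩ := Pool.Agent.H2.EV.asm (3 ^ a)
        (Nat.prime_three.isPrimePow.pow (by omega)) (Odd.pow (by decide)) (by omega) m t hl hm ht hh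
      rw [hD] at h5
      exact ⟨δ, V, i1, i2, Γ, i3, h1, h2, h3, h4, h5⟩)
  exact_mod_cast key

theorem three (m : ℕ) (hm : 1 ≤ m) : Dense (2 * m) (1 / ((3 * m - 1 - (m - 1) / 3 : ℕ) : ℝ)) := by
  refine dense_of (2 * m) (4 * m + 2) (by omega) (by omega) _ ?_
  have key := Pool.Agent.H2.EV.tur 1 (3 * m - 1 - (m - 1) / 3) (4 * m + 2) 1 6
    (by norm_num) (by omega) (by norm_num) (by norm_num) (fun a ha => by
      have h9 : 9 ≤ 3 ^ a := by
        calc 9 = 3 ^ 2 := by norm_num
          _ ≤ 3 ^ a := Nat.pow_le_pow_right (by norm_num) ha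
      obtain ⟨V, i1, i2, Γ, i3, h1, h2, h3, h4⟩ := Pool.Agent.H2.EV.core3o (3 ^ a)
        (Nat.prime_three.isPrimePow.pow (by omega)) (Odd.pow (by decide)) (3 ^ a + 1) le_rfl m hm
      refine ⟨3 ^ a + 1, V, i1, i2, Γ, i3, h1, h2, h3, by rw [pow_one]; omega, ?_⟩
      refine h4.trans ?_
      have e1 : 3 * m - 1 - (m - 1) / 3 = 2 + (3 * (m - 1) - (m - 1) / 3) := by omega
      rw [e1, pow_add]
      generalize 3 ^ a = q at h9 ⊢
      have e2 : q ^ 2 + q + 1 ≤ 3 * q ^ 2 := by nlinarith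
      calc 2 * ((q ^ 2 + q + 1) * q ^ (3 * (m - 1) - (m - 1) / 3))
          ≤ 2 * ((3 * q ^ 2) * q ^ (3 * (m - 1) - (m - 1) / 3)) := by gcongr
        _ = _ := by ring)
  exact_mod_cast key

/-- (1) For all `k ≥ 5` the exponent `1 + 3 / (4k + 2 - ⌊k/4⌋)`. (2) For all even `k = 2m` the exponent
`1 + 1 / (3m - 1 - ⌊(m-1)/3⌋)`. (3) The cycles `C_16`, `C_20`, `C_28`. -/
theorem result :
    (∀ k : ℕ, 5 ≤ k → Dense k (3 / ((4 * k + 2 - k / 4 : ℕ) : ℝ))) ∧
    (∀ m : ℕ, 1 ≤ m → Dense (2 * m) (1 / ((3 * m - 1 - (m - 1) / 3 : ℕ) : ℝ))) ∧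
    Dense 8 (1 / 10) ∧ Dense 10 (1 / 13) ∧ Dense 14 (1 / 18) := by
  refine ⟨fun k hk => ?_, three, ?_, ?_, ?_⟩
  · have h8 : k % 8 = 0 ∨ k % 8 = 1 ∨ k % 8 = 2 ∨ k % 8 = 3 ∨ k % 8 = 4 ∨ k % 8 = 5 ∨ k % 8 = 6 ∨
        k % 8 = 7 := by omega
    rcases h8 with h | h | h | h | h | h | h | h
    · exact four k (k / 2) 0 1 (by omega) (by omega) (by omega) (by omega) (by omega)
        (by split_ifs <;> omega)
    · exact four k ((k + 1) / 2) 0 0 (by omega) (by omega) (by omega) (by omega) (by omega)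
        (by split_ifs <;> omega)
    · exact four k (k / 2) 0 1 (by omega) (by omega) (by omega) (by omega) (by omega)
        (by split_ifs <;> omega)
    · exact four k ((k + 1) / 2) 0 0 (by omega) (by omega) (by omega) (by omega) (by omega)
        (by split_ifs <;> omega)
    · exact four k (k / 2 - 2) 1 1 (by omega) (by omega) (by omega) (by omega) (by omega)
        (by split_ifs <;> omega)
    · exact four k ((k - 3) / 2) 1 0 (by omega) (by omega) (by omega) (by omega) (by omega)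
        (by split_ifs <;> omega)
    · exact four k (k / 2 - 2) 1 1 (by omega) (by omega) (by omega) (by omega) (by omega)
        (by split_ifs <;> omega)
    · exact four k ((k - 3) / 2) 1 0 (by omega) (by omega) (by omega) (by omega) (by omega)
        (by split_ifs <;> omega)
  · simpa using three 4 (by norm_num)
  · simpa using three 5 (by norm_num)
  · simpa using three 7 (by norm_num)

end Pool.Agent.H2.Old.NewExponents
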